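import Pool.Agent.L0h7.KF.Stm

/-! # Negative `K`-groups over all fields, uniformly: assembly -/

set_option autoImplicit false

open CategoryTheory Filter

noncomputable section

namespace Pool.Agent.L0h7.KF

open Pool.Agent.Y75.NK Pool.Agent.L0h7.KN

theorem ev_map {r m n d : ℕ} (M : FMat r m n d) {k : Type} [Ring k] (θ : Zp r →+* k)
    {G : GrpCat.{0}} (f : fm n ⟶ G) :
    ev k m (M.map (MonoidAlgebra.mapRingHom ((EF m).obj (fm n)) θ)) f = ev2 M θ f := by
  unfold ev ev2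
  rw [Matrix.map_map]
  congr 1
  funext x
  simp only [Function.comp_apply, gmap, RingHom.comp_apply]
  induction x using MonoidAlgebra.induction_linear with
  | zero => simp only [map_zero]
  | add x y hx hy => simp only [map_add, hx, hy]
  | single g a => simp

theorem triv_map {r m n d : ℕ} (M : FMat r m n d) {k : Type} [Ring k] (θ : Zp r →+* k)
    {G : GrpCat.{0}} (f : fm n ⟶ G) :
    Triv k m (M.map (MonoidAlgebra.mapRingHom ((EF m).obj (fm n)) θ)) f ↔ Triv2 M θ f := by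
  unfold Triv Triv2
  rw [ev_map]

theorem ev_pattern2 {r : ℕ} (u : Ultrafilter ℕ) (k : ℕ → Type) [∀ i, Field (k i)]
    (θ : ∀ i, Zp r →+* k i) (I : Ideal (Zp r))
    (h : ∀ p, p ∈ I ↔ ∀ᶠ i in (u : Filter ℕ), θ i p = 0) (E : Finset (Zp r)) :
    ∀ᶠ i in (u : Filter ℕ), ∀ p ∈ E, (p ∈ I ↔ θ i p = 0) := by
  have h0 : ∀ᶠ i in (u : Filter ℕ), ∀ p ∈ (E : Set (Zp r)), (p ∈ I ↔ θ i p = 0) := by
    rw [Filter.eventually_all_finite E.finite_toSet]
    intro p _
    by_cases hp : p ∈ I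
    · filter_upwards [(h p).1 hp] with i hi
      exact ⟨fun _ => hi, fun _ => hp⟩
    · have h1 : ¬ ∀ᶠ i in (u : Filter ℕ), θ i p = 0 := fun hc => hp ((h p).2 hc)
      have h2 : ∀ᶠ i in (u : Filter ℕ), ¬ θ i p = 0 := Ultrafilter.eventually_not.2 h1
      filter_upwards [h2] with i hi
      exact ⟨fun h3 => absurd h3 hp, fun h3 => absurd h3 hi⟩
  exact h0

theorem fc_kneg (hKZ : S_KZ) (hMON : S_MON) (hCON : S_CON) : ∀ m, FC (Kneg m) := by
  intro m
  induction m with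
  | zero => exact hKZ
  | succ m ih => exact hCON hMON (Kneg m) ih

/-- the statement -/
def S_MAIN2 : Prop :=
  ∀ (S : Set ℕ), 0 ∈ S → ∀ m : ℕ,
    ((∀ (k : Type) [Field k], ringChar k ∈ S → ∀ G : GrpCat.{0}, TFr G →
      ∀ x : (Kneg m).obj ((gr k).obj G), x = 0) ↔
    ∀ (r n d : ℕ) (M : FMat r m n d), ∃ L : ℕ, ∀ (k : Type) [Field k],
      (ringChar k ∈ S ∨ L < ringChar k) → ∀ (θ : Zp r →+* k) (G : GrpCat.{0}) (f : fm n ⟶ G),
        ev2 M θ f * ev2 M θ f = ev2 M θ f → NoTors f L → Triv2 M θ f)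

theorem t_MAIN2 (hfc : ∀ m, FC (Kneg m)) (hNATR : S_NATR)
    (hNAT2 : ∀ (r m n d : ℕ) (M : FMat r m n d) (A B : Type) [Ring A] [Ring B] (θ : Zp r →+* A)
      (η : A →+* B) (G H : GrpCat.{0}) (f : fm n ⟶ G) (g : G ⟶ H), Triv2 M θ f →
      Triv2 M (η.comp θ) (f ≫ g))
    (hCFR : S_CFR) (hSTR : S_STR) (hLOC : S_LOC) (hPAT2 : S_PAT2) (hREP2 : S_REP2) (hULT : S_ULT)
    (hSHT : ∀ (R : Type) [Ring R] (m n d : ℕ)
      (M : Matrix (Fin d) (Fin d) (MonoidAlgebra R ((EF m).obj (fm n)))) (G : GrpCat.{0})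
      (f : fm n ⟶ G), Function.Surjective f.hom → Triv R m M f →
      ∃ j : ℕ, Triv R m M (toPG n (rels f j)))
    (hLIMG : S_LIMG) : S_MAIN2 := by
  intro S hS m
  constructor
  · intro ha r n d M
    by_contra hcon
    push Not at hcon
    choose k hk hchar θ G f hid hNT hnT using hcon
    have hu : (Filter.hyperfilter ℕ : Filter ℕ) ≤ Filter.atTop := by
      rw [← Nat.cofinite_eq_atTop]
      exact Filter.hyperfilter_le_cofinite
    obtain ⟨G', f', hsurj, hTF, -, hrel⟩ := hLIMG (fun _ => True) n (Filter.hyperfilter ℕ) hu G f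
      (fun _ => trivial) hNT
    obtain ⟨I, hI, hIu, hIc⟩ := hULT r (Filter.hyperfilter ℕ) hu k θ S hS hchar
    obtain ⟨E, E', hE⟩ := hPAT2 r m n d M
    obtain ⟨D, c, θ0, hcol, hc0, hD⟩ := hLOC r I
    have h1 := ev_pattern _ G f G' f' hrel E E.finite_toSet
    have h1' := ev_pattern2 _ k θ I hIu E'
    obtain ⟨i, hi, hi'⟩ := (h1.and h1').exists
    have hker : ∀ p, ((c 0).hom.comp θ0) p = 0 ↔ p ∈ I := by
      intro p
      rw [hc0, RingHom.comp_apply, FaithfulSMul.algebraMap_eq_zero_iff, Ideal.Quotient.eq_zero_iff_mem]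
    have h2 : ev2 M ((c 0).hom.comp θ0) f' * ev2 M ((c 0).hom.comp θ0) f' =
        ev2 M ((c 0).hom.comp θ0) f' :=
      hE (k i) (FractionRing (Zp r ⧸ I)) (θ i) ((c 0).hom.comp θ0) (G i) G' (f i) f'
        (fun w hw => (hi w hw).symm) (fun p hp => (hi' p hp).symm.trans (hker p).symm) (hid i)
    have h3 : Triv2 M ((c 0).hom.comp θ0) f' :=
      ⟨h2, ha (FractionRing (Zp r ⧸ I)) hIc G' hTF _⟩
    obtain ⟨j, hj⟩ := hSHT (FractionRing (Zp r ⧸ I)) m n d _ G' f' hsurj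
      ((triv_map M ((c 0).hom.comp θ0) f').2 h3)
    have h4 := (triv_map M ((c 0).hom.comp θ0) (toPG n (rels f' j))).1 hj
    obtain ⟨l, hl, h5⟩ := hSTR hNATR hCFR hfc r m n d M D _ c hcol _ (toPG n (rels f' j)) θ0 h4
    obtain ⟨E'', hE''⟩ := hD l hl
    have h6 := ev_pattern _ G f G' f' hrel _ (finite_words n j)
    have h7 := ev_pattern2 _ k θ I hIu E''
    obtain ⟨a, ha1, ha2⟩ := (h6.and h7).exists
    obtain ⟨η, hη⟩ := hE'' (k a) (θ a) ha2
    have h8 : ∀ w ∈ rels f' j, (f a).hom w = 1 := fun w hw => (ha1 w hw.1).1 hw.2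
    have h9 := hNAT2 r m n d M _ _ _ η _ _ _ (fromPG (f a) (rels f' j) h8) h5
    rw [toPG_from, hη] at h9
    exact hnT a h9
  · intro hb k _ hchar G hTF x
    have key : ∀ e : Idem (MonoidAlgebra k ((EF m).obj G)), kclass k m G e = 0 := by
      intro e
      obtain ⟨r, n, M, θ, f, hf⟩ := hREP2 k m G e
      obtain ⟨L, hL⟩ := hb r n e.n M
      have h1 : ev2 M θ f * ev2 M θ f = ev2 M θ f := by
        rw [hf]
        exact e.idem
      obtain ⟨h2, h3⟩ := hL k (Or.inl hchar) θ G f h1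
        (fun w _ q hq _ hw => hTF _ q hq hw)
      rwa [idem_eq e _ h2 hf] at h3
    obtain ⟨e, e', he⟩ := kclass_generate k m G x
    rw [he, key e, key e', sub_zero]

end Pool.Agent.L0h7.KF
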