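import Pool.Agent.L0h7.KN.MAIN

/-! # Negative `K`-groups over all fields, uniformly: definitions and statements -/

set_option autoImplicit false

open CategoryTheory

noncomputable section

namespace Pool.Agent.L0h7.KF

open Pool.Agent.Y75.NK Pool.Agent.L0h7.KN

/-- formal coefficients: integral polynomials in `r` variables -/
abbrev Zp (r : ℕ) : Type := MvPolynomial (Fin r) ℤ

/-- the homomorphism of group rings induced by `θ : A → B` and `f : E → H` -/
def gmap {A B : Type} [Ring A] [Ring B] {E H : Type} [Group E] [Group H] (θ : A →+* B)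
    (f : E →* H) : MonoidAlgebra A E →+* MonoidAlgebra B H :=
  (MonoidAlgebra.mapRingHom H θ).comp (MonoidAlgebra.mapDomainRingHom A f)

/-- formal matrices with formal coefficients -/
abbrev FMat (r m n d : ℕ) : Type :=
  Matrix (Fin d) (Fin d) (MonoidAlgebra (Zp r) ((EF m).obj (fm n)))

/-- the value of a formal matrix -/
def ev2 {r m n d : ℕ} (M : FMat r m n d) {k : Type} [Ring k] (θ : Zp r →+* k) {G : GrpCat.{0}}
    (f : fm n ⟶ G) : Matrix (Fin d) (Fin d) (MonoidAlgebra k ((EF m).obj G)) :=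
  M.map (gmap θ ((EF m).map f).hom)

/-- the value of the formal matrix `M` is idempotent and its class in `K_{-m}(k[G])` is zero -/
def Triv2 {r m n d : ℕ} (M : FMat r m n d) {k : Type} [Ring k] (θ : Zp r →+* k) {G : GrpCat.{0}}
    (f : fm n ⟶ G) : Prop :=
  ∃ h : ev2 M θ f * ev2 M θ f = ev2 M θ f, kclass k m G ⟨d, ev2 M θ f, h⟩ = 0

/-- the functor `A ↦ A[P]` -/
def cg (P : GrpCat.{0}) : RingCat.{0} ⥤ RingCat.{0} where
  obj A := RingCat.of (MonoidAlgebra A P)
  map f := RingCat.ofHom (MonoidAlgebra.mapRingHom P f.hom)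
  map_id A := by
    apply RingCat.hom_ext
    exact MonoidAlgebra.mapRingHom_id
  map_comp f g := by
    apply RingCat.hom_ext
    exact MonoidAlgebra.mapRingHom_comp _ _

/-- NATR: `kclass` is natural in the coefficient ring. (`kclT A m` is `projT m` after the inverse of
`theta A m`; `projT m` is natural in the ring. By induction on `m` the isomorphism
`(theta A m).inv.app G : A[ℤᵐ × G] → (lau m).obj A[G]` is natural in `A`; this reduces to
`MonoidAlgebra.curryRingEquiv` and `mapRingHom`, compare `Pool.Agent.Y75.NK.cur_nat`.) -/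
def S_NATR : Prop :=
  ∀ (A B : Type) [Ring A] [Ring B] (η : A →+* B) (m : ℕ) (G : GrpCat.{0})
    (e : Idem (MonoidAlgebra A ((EF m).obj G))),
    kclass B m G (e.map (MonoidAlgebra.mapRingHom _ η)) =
      ((Kneg m).map (RingCat.ofHom (MonoidAlgebra.mapRingHom G η))).hom (kclass A m G e)

/-- NAT2: monotonicity in the ring and in the group (`S_NATR` and
`Pool.Agent.L0h6.KN.kclass_nat`) -/
def S_NAT2 : Prop := S_NATR →
  ∀ (r m n d : ℕ) (M : FMat r m n d) (A B : Type) [Ring A] [Ring B] (θ : Zp r →+* A)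
    (η : A →+* B) (G H : GrpCat.{0}) (f : fm n ⟶ G) (g : G ⟶ H), Triv2 M θ f →
    Triv2 M (η.comp θ) (f ≫ g)

/-- CFR: `A ↦ A[P]` commutes with colimits of sequences of rings (coefficientwise, as
`Pool.Agent.L0h48.KN.t_MON`) -/
def S_CFR : Prop :=
  ∀ (P : GrpCat.{0}) (D : ℕ ⥤ RingCat.{0}) (B : RingCat.{0}) (c : ∀ i, D.obj i ⟶ B),
    RCol D B c → RCol (D ⋙ cg P) ((cg P).obj B) (fun i => (cg P).map (c i))

/-- STR: if the class is trivial over the colimit ring then it is trivial at some stage. (First the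
matrix is idempotent at some stage: `S_CFR` for `ℤᵐ × P`. Its class at this stage has image zero in
`K_{-m}(B[P])` by `S_NATR`, so it is zero at a later stage by the hypothesis on `Kneg m` and `S_CFR`
for `P`. Compare `Pool.Agent.L0h19.KN.t_STG`.) -/
def S_STR : Prop := S_NATR → S_CFR → (∀ m, FC (Kneg m)) →
  ∀ (r m n d : ℕ) (M : FMat r m n d) (D : ℕ ⥤ RingCat.{0}) (B : RingCat.{0})
    (c : ∀ i, D.obj i ⟶ B), RCol D B c → ∀ (P : GrpCat.{0}) (f : fm n ⟶ P)
    (θ : Zp r →+* D.obj 0), Triv2 M ((c 0).hom.comp θ) f →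
    ∃ (j : ℕ) (h : 0 ⟶ j), Triv2 M ((D.map h).hom.comp θ) f

/-- LOC: the field of fractions of `ℤ[a]/𝔭` is the colimit of a sequence of rings `D_j` which have
homomorphisms to each field `k` with a homomorphism `θ : ℤ[a] → k` for which finitely many
polynomials are in the kernel if and only if they are in `𝔭`. (`s : ℕ → ℤ[a]` enumerates the
complement of `𝔭`, `σ_j = s_0 ... s_j`, `D_j` = the elements `a / σ_j ^ N` of the field, or
`Localization.Away`; the finite set: generators of `𝔭` and `σ_j`. `CategoryTheory.Functor.ofSequence`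
may help.) -/
def S_LOC : Prop :=
  ∀ (r : ℕ) (𝔭 : Ideal (Zp r)) [𝔭.IsPrime], ∃ (D : ℕ ⥤ RingCat.{0})
    (c : ∀ i, D.obj i ⟶ RingCat.of (FractionRing (Zp r ⧸ 𝔭))) (θ : Zp r →+* D.obj 0),
    RCol D (RingCat.of (FractionRing (Zp r ⧸ 𝔭))) c ∧
    (c 0).hom.comp θ =
      (algebraMap (Zp r ⧸ 𝔭) (FractionRing (Zp r ⧸ 𝔭))).comp (Ideal.Quotient.mk 𝔭) ∧
    ∀ (j : ℕ) (h : 0 ⟶ j), ∃ E : Finset (Zp r), ∀ (k : Type) [Field k] (ρ : Zp r →+* k),
      (∀ p ∈ E, p ∈ 𝔭 ↔ ρ p = 0) → ∃ η : D.obj j →+* k, η.comp ((D.map h).hom.comp θ) = ρ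

/-- PAT2: finitely many words and polynomials decide whether the value is idempotent. (As
`Pool.Agent.L0h91.KN.PAT.t_PAT`: two elements of the supports of the entries of `M * M - M` have the
same image in `ℤᵐ × G` if and only if they have the same image in `ℤᵐ × H`; `E'` = the sums of the
coefficients of the entries over all subsets of the supports.) -/
def S_PAT2 : Prop :=
  ∀ (r m n d : ℕ) (M : FMat r m n d), ∃ (E : Finset (FreeGroup (Fin n))) (E' : Finset (Zp r)),
    ∀ (k k' : Type) [Ring k] [Ring k'] (θ : Zp r →+* k) (θ' : Zp r →+* k') (G H : GrpCat.{0})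
      (f : fm n ⟶ G) (g : fm n ⟶ H), (∀ w ∈ E, f.hom w = 1 ↔ g.hom w = 1) →
      (∀ p ∈ E', θ p = 0 ↔ θ' p = 0) → ev2 M θ f * ev2 M θ f = ev2 M θ f →
      ev2 M θ' g * ev2 M θ' g = ev2 M θ' g

/-- REP2: every idempotent matrix over `k[ℤᵐ × G]` is the value of a formal matrix (from
`Pool.Agent.L0h6.KN.t_REP`; one variable for each of the finitely many coefficients) -/
def S_REP2 : Prop :=
  ∀ (k : Type) [CommRing k] (m : ℕ) (G : GrpCat.{0}) (e : Idem (MonoidAlgebra k ((EF m).obj G))),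
    ∃ (r n : ℕ) (M : FMat r m n e.n) (θ : Zp r →+* k) (f : fm n ⟶ G), ev2 M θ f = e.e

/-- ULT: a sequence of homomorphisms of `ℤ[a]` to fields has a limit along an ultrafilter: a prime
ideal. (`𝔭` = the polynomials `p` with `θ_i p = 0` for almost all `i`; the characteristic of
`ℤ[a]/𝔭` is a prime `q` if and only if `q = 0` in almost all `k_i`.) -/
def S_ULT : Prop :=
  ∀ (r : ℕ) (u : Ultrafilter ℕ), (u : Filter ℕ) ≤ Filter.atTop →
    ∀ (k : ℕ → Type) [∀ i, Field (k i)] (θ : ∀ i, Zp r →+* k i) (S : Set ℕ), 0 ∈ S →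
    (∀ i, ringChar (k i) ∈ S ∨ i < ringChar (k i)) →
    ∃ 𝔭 : Ideal (Zp r), 𝔭.IsPrime ∧ (∀ p, p ∈ 𝔭 ↔ ∀ᶠ i in (u : Filter ℕ), θ i p = 0) ∧
      ringChar (FractionRing (Zp r ⧸ 𝔭)) ∈ S

end Pool.Agent.L0h7.KF
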